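import Mathlib

/-!
# MP_ea4c65_al, Q1: the depth of the shadow can be the whole length

For every `k` there are an infinite finitely generated group `G`, a finite generating set `S` and
an element `x` with `|x| = k` and `sd(x) = k`. So the trivial bound `sd(x) ≤ |x|` is attained for
every length, and `sd(x) ≤ ⌈|x|/2⌉` fails for every length `k ≥ 2`.

Example: `G = ℤ × ℤ/(4k+1)`, `S = {(1,0), (1,1), (0,2)}`, `x = (0, 2k)`.
-/

set_option autoImplicit false

namespace Pool.Agent.Results.MP_ea4c65_al.ShadowDepth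

/-- Word length of `x` with respect to `S`. -/
noncomputable def len {G : Type} [Group G] (S : Set G) (x : G) : ℕ :=
  sInf {n | ∃ l : List G, (∀ g ∈ l, g ∈ S ∨ g⁻¹ ∈ S) ∧ l.length = n ∧ l.prod = x}

/-- Adjacency in the Cayley graph of `(G, S)`. -/
def Adj {G : Type} [Group G] (S : Set G) (x y : G) : Prop :=
  x⁻¹ * y ∈ S ∨ (x⁻¹ * y)⁻¹ ∈ S

/-- There is a strictly increasing path to infinity from `x`. -/
def HasIncreasingPath {G : Type} [Group G] (S : Set G) (x : G) : Prop :=
  ∃ π : ℕ → G, π 0 = x ∧ ∀ i, Adj S (π i) (π (i + 1)) ∧ len S (π i) < len S (π (i + 1))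

/-- `y` lies on some geodesic from the identity to `x`. -/
def OnGeodesic {G : Type} [Group G] (S : Set G) (x y : G) : Prop :=
  ∃ p : ℕ → G, p 0 = 1 ∧ p (len S x) = x ∧ (∀ i < len S x, Adj S (p i) (p (i + 1))) ∧
    ∃ i ≤ len S x, p i = y

/-- The depth of the shadow of `x`: the least `k` such that some `y` of length `|x| - k` with a
strictly increasing path to infinity lies on some geodesic from the identity to `x`. -/
noncomputable def sd {G : Type} [Group G] (S : Set G) (x : G) : ℕ :=
  sInf {k | ∃ y, len S y + k = len S x ∧ HasIncreasingPath S y ∧ OnGeodesic S x y}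

section general

variable {G : Type} [Group G] {S : Set G}

theorem len_le {x : G} (l : List G) (hl : ∀ g ∈ l, g ∈ S ∨ g⁻¹ ∈ S) (hx : l.prod = x) :
    len S x ≤ l.length := Nat.sInf_le ⟨l, hl, rfl, hx⟩

theorem exists_list (hS : Subgroup.closure S = ⊤) (x : G) :
    ∃ l : List G, (∀ g ∈ l, g ∈ S ∨ g⁻¹ ∈ S) ∧ l.length = len S x ∧ l.prod = x := by
  have hne : {n | ∃ l : List G, (∀ g ∈ l, g ∈ S ∨ g⁻¹ ∈ S) ∧ l.length = n ∧ l.prod = x}.Nonempty := by
    have hx : x ∈ Submonoid.closure (S ∪ S⁻¹) := by
      rw [← Subgroup.closure_toSubmonoid, hS]; exact Subgroup.mem_top x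
    obtain ⟨l, hl, hx⟩ := Submonoid.exists_list_of_mem_closure hx
    exact ⟨l.length, l, fun g hg => hl g hg, rfl, hx⟩
  exact Nat.sInf_mem hne

theorem len_one : len S (1 : G) = 0 := by
  have := len_le (S := S) (x := (1 : G)) [] (by simp) rfl
  simpa using this

end general

section example_

variable (k : ℕ)

/-- The group `ℤ × ℤ/(4k+1)`, written multiplicatively. -/
abbrev Gk : Type := Multiplicative (ℤ × ZMod (4 * k + 1))

/-- The element `(a, b)`. -/
def el (a : ℤ) (b : ZMod (4 * k + 1)) : Gk k := Multiplicative.ofAdd (a, b)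

/-- The generating set. -/
def Sk : Set (Gk k) := {el k 1 0, el k 1 1, el k 0 2}

theorem el_mul (a a' : ℤ) (b b' : ZMod (4 * k + 1)) : el k a b * el k a' b' = el k (a + a') (b + b') :=
  rfl

theorem el_inv (a : ℤ) (b : ZMod (4 * k + 1)) : (el k a b)⁻¹ = el k (-a) (-b) :=
  rfl

theorem el_one : (1 : Gk k) = el k 0 0 := rfl

theorem el_surj (x : Gk k) : ∃ a b, x = el k a b := ⟨x.toAdd.1, x.toAdd.2, rfl⟩

theorem el_inj {a a' : ℤ} {b b' : ZMod (4 * k + 1)} (h : el k a b = el k a' b') :
    a = a' ∧ b = b' := by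
  have h2 : (a, b) = (a', b') := Multiplicative.ofAdd.injective h
  exact ⟨congrArg Prod.fst h2, congrArg Prod.snd h2⟩

theorem el_pow (a : ℤ) (b : ZMod (4 * k + 1)) (n : ℕ) : (el k a b) ^ n = el k (n * a) (n * b) := by
  induction n with
  | zero => simp [el_one]
  | succ n ih =>
    rw [pow_succ, ih, el_mul]
    congr 1
    · push_cast; ring
    · push_cast; ring

theorem el_zpow (a : ℤ) (b : ZMod (4 * k + 1)) (n : ℤ) : (el k a b) ^ n = el k (n * a) (n * b) := by
  cases n with
  | ofNat n =>
    rw [Int.ofNat_eq_natCast, zpow_natCast, el_pow]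
    congr 1
  | negSucc n =>
    rw [zpow_negSucc, el_pow, el_inv]
    congr 1
    · rw [Int.negSucc_eq]; push_cast; ring
    · push_cast; ring

theorem closure_Sk : Subgroup.closure (Sk k) = ⊤ := by
  rw [eq_top_iff]
  intro x _
  obtain ⟨a, b, rfl⟩ := el_surj k x
  have h1 : el k 1 0 ∈ Subgroup.closure (Sk k) := Subgroup.subset_closure (by simp [Sk])
  have h2 : el k 1 1 ∈ Subgroup.closure (Sk k) := Subgroup.subset_closure (by simp [Sk])
  have h3 : el k a b = (el k 1 0) ^ a * ((el k 1 0)⁻¹ * el k 1 1) ^ (b.val) := by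
    rw [el_inv, el_mul, el_zpow, el_pow, el_mul]
    congr 1
    · simp
    · simp
  rw [h3]
  exact Subgroup.mul_mem _ (Subgroup.zpow_mem _ h1 _)
    (Subgroup.pow_mem _ (Subgroup.mul_mem _ (Subgroup.inv_mem _ h1) h2) _)

/-- Every letter has a small integer lift. -/
theorem letter {a : ℤ} {b : ZMod (4 * k + 1)} (h : el k a b ∈ Sk k ∨ (el k a b)⁻¹ ∈ Sk k) :
    ∃ B : ℤ, b = (B : ZMod (4 * k + 1)) ∧ |B| + |a| ≤ 2 ∧ |a| ≤ 1 := by
  rcases h with h | h
  · rcases h with h | h | h
    · obtain ⟨rfl, rfl⟩ := el_inj k h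
      exact ⟨0, by simp, by norm_num, by norm_num⟩
    · obtain ⟨rfl, rfl⟩ := el_inj k h
      exact ⟨1, by simp, by norm_num, by norm_num⟩
    · obtain ⟨rfl, rfl⟩ := el_inj k h
      exact ⟨2, by simp, by norm_num, by norm_num⟩
  · rw [el_inv] at h
    rcases h with h | h | h
    · obtain ⟨h1, h2⟩ := el_inj k h
      refine ⟨0, ?_, ?_, ?_⟩
      · rw [← neg_neg b, h2]; simp
      · rw [← neg_neg a, h1]; norm_num
      · rw [← neg_neg a, h1]; norm_num
    · obtain ⟨h1, h2⟩ := el_inj k h
      refine ⟨-1, ?_, ?_, ?_⟩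
      · rw [← neg_neg b, h2]; simp
      · rw [← neg_neg a, h1]; norm_num
      · rw [← neg_neg a, h1]; norm_num
    · obtain ⟨h1, h2⟩ := el_inj k h
      refine ⟨-2, ?_, ?_, ?_⟩
      · rw [← neg_neg b, h2]; simp
      · rw [← neg_neg a, h1]; norm_num
      · rw [← neg_neg a, h1]; norm_num

theorem list_lift (l : List (Gk k)) (hl : ∀ g ∈ l, g ∈ Sk k ∨ g⁻¹ ∈ Sk k) :
    ∃ a B : ℤ, l.prod = el k a (B : ZMod (4 * k + 1)) ∧ |B| + |a| ≤ 2 * l.length ∧
      |a| ≤ l.length := by
  induction l with
  | nil => exact ⟨0, 0, by simp [el_one], by simp, by simp⟩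
  | cons g l ih =>
    obtain ⟨a, B, h1, h2, h3⟩ := ih (fun g hg => hl g (List.mem_cons_of_mem _ hg))
    obtain ⟨a', b', rfl⟩ := el_surj k g
    obtain ⟨B', rfl, h4, h5⟩ := letter k (hl _ List.mem_cons_self)
    refine ⟨a' + a, B' + B, ?_, ?_, ?_⟩
    · rw [List.prod_cons, h1, el_mul]
      congr 1
      push_cast; ring
    · have e1 := abs_add_le B' B
      have e2 := abs_add_le a' a
      rw [List.length_cons]
      push_cast
      linarith
    · have e2 := abs_add_le a' a
      rw [List.length_cons]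
      push_cast
      linarith

theorem path_lift (p : ℕ → Gk k) (m n : ℕ) (hp : ∀ i, m ≤ i → i < m + n → Adj (Sk k) (p i) (p (i + 1))) :
    ∃ a B : ℤ, (p m)⁻¹ * p (m + n) = el k a (B : ZMod (4 * k + 1)) ∧ |B| + |a| ≤ 2 * n ∧
      |a| ≤ n := by
  induction n with
  | zero => exact ⟨0, 0, by simp [el_one], by simp, by simp⟩
  | succ n ih =>
    obtain ⟨a, B, h1, h2, h3⟩ := ih (fun i hi hi' => hp i hi (by omega))
    obtain ⟨a', b', hg⟩ := el_surj k ((p (m + n))⁻¹ * p (m + n + 1))
    have hadj := hp (m + n) (by omega) (by omega)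
    unfold Adj at hadj
    rw [hg] at hadj
    obtain ⟨B', rfl, h4, h5⟩ := letter k hadj
    refine ⟨a + a', B + B', ?_, ?_, ?_⟩
    · have : (p m)⁻¹ * p (m + (n + 1)) = ((p m)⁻¹ * p (m + n)) * ((p (m + n))⁻¹ * p (m + n + 1)) := by
        rw [← add_assoc]; group
      rw [this, h1, hg, el_mul]
      congr 1
      push_cast; ring
    · have e1 := abs_add_le B B'
      have e2 := abs_add_le a a'
      push_cast
      linarith
    · have e2 := abs_add_le a a'
      push_cast
      linarith

/-- A lift of `2k` modulo `4k+1` has absolute value at least `2k`. -/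
theorem lift_ge (B : ℤ) (h : ((2 * k : ℕ) : ZMod (4 * k + 1)) = (B : ZMod (4 * k + 1))) :
    2 * (k : ℤ) ≤ |B| := by
  have h1 : ((2 * k : ℕ) : ℤ) ≡ B [ZMOD ((4 * k + 1 : ℕ) : ℤ)] := by
    rw [← ZMod.intCast_eq_intCast_iff]
    push_cast
    push_cast at h
    exact h
  obtain ⟨j, hj⟩ := h1.dvd
  push_cast at hj
  rcases lt_trichotomy j 0 with hj0 | hj0 | hj0
  · have : B ≤ -(2 * (k : ℤ)) := by nlinarith
    have := neg_abs_le B
    linarith
  · subst hj0
    have := le_abs_self B
    linarith
  · have : 2 * (k : ℤ) ≤ B := by nlinarith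
    have := le_abs_self B
    linarith

theorem abs_le_len (a : ℤ) (b : ZMod (4 * k + 1)) : |a| ≤ len (Sk k) (el k a b) := by
  obtain ⟨l, hl, h1, h2⟩ := exists_list (closure_Sk k) (el k a b)
  obtain ⟨a', B, h3, -, h4⟩ := list_lift k l hl
  rw [h2] at h3
  obtain ⟨rfl, -⟩ := el_inj k h3
  rw [← h1]
  exact h4

theorem len_x : len (Sk k) (el k 0 ((2 * k : ℕ) : ZMod (4 * k + 1))) = k := by
  apply le_antisymm
  · have h := len_le (S := Sk k) (x := el k 0 ((2 * k : ℕ) : ZMod (4 * k + 1)))
      (List.replicate k (el k 0 2)) (by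
        intro g hg
        rw [List.eq_of_mem_replicate hg]
        left
        simp [Sk]) (by
        rw [List.prod_replicate, el_pow]
        congr 1
        push_cast; ring)
    simpa using h
  · obtain ⟨l, hl, h1, h2⟩ := exists_list (closure_Sk k) (el k 0 ((2 * k : ℕ) : ZMod (4 * k + 1)))
    obtain ⟨a', B, h3, h5, h4⟩ := list_lift k l hl
    rw [h2] at h3
    obtain ⟨rfl, hB⟩ := el_inj k h3
    have := lift_ge k B hB
    rw [← h1]
    simp only [abs_zero, add_zero] at h5
    omega

/-- Far out, the length is the absolute value of the first coordinate. -/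
theorem len_far (a : ℤ) (b : ZMod (4 * k + 1)) (ha : (4 * k : ℤ) ≤ |a|) :
    (len (Sk k) (el k a b) : ℤ) ≤ |a| := by
  have hN : NeZero (4 * k + 1) := ⟨by omega⟩
  rcases abs_choice a with h | h
  · rw [h] at ha ⊢
    have hb := ZMod.val_lt b
    have h := len_le (S := Sk k) (x := el k a b)
      (List.replicate b.val (el k 1 1) ++ List.replicate (a.toNat - b.val) (el k 1 0)) (by
        intro g hg
        rw [List.mem_append] at hg
        left
        rcases hg with hg | hg
        · rw [List.eq_of_mem_replicate hg]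
          simp [Sk]
        · rw [List.eq_of_mem_replicate hg]
          simp [Sk]) (by
        rw [List.prod_append, List.prod_replicate, List.prod_replicate, el_pow, el_pow, el_mul]
        congr 1
        · omega
        · simp)
    simp only [List.length_append, List.length_replicate] at h
    omega
  · rw [h] at ha ⊢
    have hb := ZMod.val_lt (-b)
    have h := len_le (S := Sk k) (x := el k a b)
      (List.replicate (-b).val (el k (-1) (-1)) ++
        List.replicate ((-a).toNat - (-b).val) (el k (-1) 0)) (by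
        intro g hg
        rw [List.mem_append] at hg
        right
        rcases hg with hg | hg
        · rw [List.eq_of_mem_replicate hg, el_inv]
          simp [Sk]
        · rw [List.eq_of_mem_replicate hg, el_inv]
          simp [Sk]) (by
        rw [List.prod_append, List.prod_replicate, List.prod_replicate, el_pow, el_pow, el_mul]
        congr 1
        · omega
        · simp)
    simp only [List.length_append, List.length_replicate] at h
    omega

theorem no_path (a : ℤ) (b : ZMod (4 * k + 1)) (h : |a| < len (Sk k) (el k a b)) :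
    ¬ HasIncreasingPath (Sk k) (el k a b) := by
  have hN : NeZero (4 * k + 1) := ⟨by omega⟩
  rintro ⟨π, h0, hπ⟩
  have hlen : ∀ i, len (Sk k) (el k a b) + i ≤ len (Sk k) (π i) := by
    intro i
    induction i with
    | zero => rw [h0]; simp
    | succ i ih => have := (hπ i).2; omega
  have hmem : ∀ i, π i ∈ (fun q : ℤ × ZMod (4 * k + 1) => el k q.1 q.2) ''
      ((Set.Icc (-(4 * k : ℤ)) (4 * k)) ×ˢ (Set.univ : Set (ZMod (4 * k + 1)))) := by
    intro i
    obtain ⟨a', b', h'⟩ := el_surj k (π i)
    refine ⟨(a', b'), ⟨?_, Set.mem_univ _⟩, h'.symm⟩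
    by_contra hcon
    have ha' : (4 * k : ℤ) ≤ |a'| := by
      rw [Set.mem_Icc, ← abs_le] at hcon
      push Not at hcon
      exact hcon.le
    have h1 := len_far k a' b' ha'
    have h2 := hlen i
    rw [h'] at h2
    obtain ⟨a'', B, h3, -, h4⟩ := path_lift k π 0 i (fun j _ _ => (hπ j).1)
    rw [zero_add, h0, h', el_inv, el_mul] at h3
    obtain ⟨h5, -⟩ := el_inj k h3
    have h6 : |a'| ≤ |a| + |a''| := by
      have : a' = a + a'' := by linarith
      rw [this]
      exact abs_add_le a a''
    omega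
  have hinj : Function.Injective π := by
    have hmono : StrictMono (fun i => len (Sk k) (π i)) := strictMono_nat_of_lt_succ (fun i => (hπ i).2)
    intro i j hij
    exact hmono.injective (congrArg (len (Sk k)) hij)
  refine Set.infinite_of_injective_forall_mem hinj hmem (Set.Finite.image _ ?_)
  exact (Set.finite_Icc _ _).prod Set.finite_univ

theorem sd_x : sd (Sk k) (el k 0 ((2 * k : ℕ) : ZMod (4 * k + 1))) = k := by
  set x := el k 0 ((2 * k : ℕ) : ZMod (4 * k + 1)) with hx
  have hlen : len (Sk k) x = k := len_x k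
  have hmem : k ∈ {j | ∃ y, len (Sk k) y + j = len (Sk k) x ∧ HasIncreasingPath (Sk k) y ∧
      OnGeodesic (Sk k) x y} := by
    refine ⟨1, ?_, ?_, ?_⟩
    · rw [len_one, hlen, zero_add]
    · have hl : ∀ i : ℕ, len (Sk k) (el k i 0) = i := by
        intro i
        apply le_antisymm
        · have h := len_le (S := Sk k) (x := el k i 0) (List.replicate i (el k 1 0)) (by
            intro g hg
            rw [List.eq_of_mem_replicate hg]
            left
            simp [Sk]) (by
            rw [List.prod_replicate, el_pow]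
            congr 1
            all_goals simp)
          simpa using h
        · have := abs_le_len k i 0
          simp only [Nat.abs_cast] at this
          exact_mod_cast this
      refine ⟨fun i => el k i 0, ?_, ?_⟩
      · simp [el_one]
      · intro i
        refine ⟨?_, ?_⟩
        · left
          show (el k i 0)⁻¹ * el k ((i + 1 : ℕ) : ℤ) 0 ∈ Sk k
          rw [el_inv, el_mul]
          left
          congr 1
          · push_cast; ring
          · simp
        · show len (Sk k) (el k i 0) < len (Sk k) (el k ((i + 1 : ℕ) : ℤ) 0)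
          rw [hl, hl]
          omega
    · refine ⟨fun i => el k 0 ((2 * i : ℕ) : ZMod (4 * k + 1)), ?_, ?_, ?_, 0, Nat.zero_le _, ?_⟩
      · simp [el_one]
      · rw [hlen]
      · intro i _
        left
        show (el k 0 _)⁻¹ * el k 0 _ ∈ Sk k
        rw [el_inv, el_mul]
        right; right
        rw [Set.mem_singleton_iff]
        congr 1
        push_cast; ring
      · simp [el_one]
  apply le_antisymm
  · exact Nat.sInf_le hmem
  · apply le_csInf ⟨k, hmem⟩
    rintro j ⟨y, h1, h2, p, hp0, hpx, hp, i, hi, hiy⟩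
    by_contra hcon
    push Not at hcon
    rw [hlen] at h1 hpx hp hi
    obtain ⟨a, b, rfl⟩ := el_surj k y
    obtain ⟨a1, B1, h3, h4, -⟩ := path_lift k p 0 i (fun j _ hj => hp j (by omega))
    obtain ⟨a2, B2, h5, h6, -⟩ := path_lift k p i (k - i) (fun j _ hj => hp j (by omega))
    rw [zero_add, hp0, inv_one, one_mul] at h3
    have h7 : p k = el k (a1 + a2) ((B1 + B2 : ℤ) : ZMod (4 * k + 1)) := by
      have e : p k = p i * ((p i)⁻¹ * p (i + (k - i))) := by
        rw [show i + (k - i) = k by omega]; group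
      rw [e, h5, h3, el_mul]
      congr 1
      push_cast; ring
    rw [hpx, hx] at h7
    obtain ⟨-, h8⟩ := el_inj k h7
    have h9 := lift_ge k _ h8
    have h10 := abs_add_le B1 B2
    have h11 : ((k - i : ℕ) : ℤ) = (k : ℤ) - i := by omega
    rw [h11] at h6
    have h12 : |a1| = 0 := by
      have := abs_nonneg a1
      have := abs_nonneg a2
      linarith
    rw [hiy] at h3
    obtain ⟨rfl, -⟩ := el_inj k h3
    refine no_path k a b ?_ h2
    rw [h12]
    omega

end example_

/-- For every `k` there are an infinite finitely generated group `G` with a finite generating set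
`S` and an element `x` with `|x| = k` and `sd(x) = k`; if `k ≥ 2` then `sd(x) > ⌈|x|/2⌉`. -/
theorem result : ∀ k : ℕ, ∃ (G : Type) (_ : Group G) (S : Set G) (x : G),
    Infinite G ∧ S.Finite ∧ Subgroup.closure S = ⊤ ∧ len S x = k ∧ sd S x = k ∧
      (2 ≤ k → ⌈(len S x : ℚ) / 2⌉ < (sd S x : ℤ)) := by
  intro k
  refine ⟨Gk k, inferInstance, Sk k, el k 0 ((2 * k : ℕ) : ZMod (4 * k + 1)), ?_, ?_,
    closure_Sk k, len_x k, sd_x k, ?_⟩
  · exact inferInstanceAs (Infinite (ℤ × ZMod (4 * k + 1)))
  · unfold Sk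
    exact Set.toFinite _
  · intro hk
    rw [len_x, sd_x]
    have hk' : (2 : ℚ) ≤ k := by exact_mod_cast hk
    have h1 : ⌈(k : ℚ) / 2⌉ ≤ (k : ℤ) - 1 := by
      rw [Int.ceil_le]
      push_cast
      linarith
    omega

end Pool.Agent.Results.MP_ea4c65_al.ShadowDepth
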